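import Pool.Agent.W957.CH.Stm2

/-! Project CH (MP_d275fd_co): no wide parallel pairs. -/

namespace Pool.Agent.W925.CH.Ps

open Finset Pool.Agent.W957.CH

theorem rho_ge (r0 τ u : ℕ) : τ + 1 ≤ rho r0 τ u := by
  induction u with
  | zero => exact le_rfl
  | succ u ih =>
    show τ + 1 ≤ 2 * rho r0 τ u + r0 + 2 * τ + 4
    omega

theorem t_PS (h1 : S_PP) (h2 : S_4A) (h3 : S_4C) : S_PS := by
  classical
  intro V _ X n c τ σ l l' w w' u
  induction u generalizing l l' w w' with
  | zero =>
    intro L1 L2 hS hP hu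
    have hcl : ∀ p, w ≤ p → p ≤ w' → Cl X n c p := by
      intro p hp hp'
      by_contra hn
      have hm : p ∈ (Icc w w').filter (fun i => ¬ Cl X n c i) :=
        Finset.mem_filter.2 ⟨Finset.mem_Icc.2 ⟨hp, hp'⟩, hn⟩
      have h0 : (Icc w w').filter (fun i => ¬ Cl X n c i) = ∅ := by
        apply Finset.card_eq_zero.1
        convert Nat.le_zero.1 hu
      rw [h0] at hm
      exact absurd hm (Finset.notMem_empty p)
    show l' - l < τ + 1
    have hll := hP.ll
    have hww := hP.ww
    have hs1 := hP.s1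
    have hs2 := hP.s2
    rcases hP.sep with hs | hs
    · have := h3 V X n c τ σ l l' w w' L1 L2 hS hP.ll hs hP.ww (by omega) hP.cl hcl hP.C1 hP.C2
        hP.ne hP.a1 hP.b1 hP.a2 hP.b2
      omega
    · have := h3 V X n c τ σ w w' l l' L1 L2 hS hP.ww hs hP.ll (by omega) hcl hP.cl hP.C1 hP.C2
        hP.ne hP.b1 hP.a1 hP.b2 hP.a2
      omega
  | succ u ih =>
    intro L1 L2 hS hP hu
    by_contra hlt
    push Not at hlt
    set r0 := bb X.m τ * (σ + τ + 2) with hr0
    have hlt' : 2 * rho r0 τ u + r0 + 2 * τ + 4 ≤ l' - l := hlt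
    have hR := rho_ge r0 τ u
    set R := rho r0 τ u with hRd
    have hll := hP.ll
    have hww := hP.ww
    have hs1 := hP.s1
    have hs2 := hP.s2
    have hwn := hP.wn
    obtain ⟨y1, y2, hy1, hy12, hy2, ⟨M1, hM1, hM1y, x1, hx1, hx1', hM1x⟩,
      ⟨M2, hM2, hM2y, x2, hx2, hx2', hM2x⟩⟩ :=
      h1 V X n c τ σ l l' w w' (l + R) (l + R + r0) L1 L2 hS hP (by omega) (by omega) (by omega)
        (by omega)
    have hne1 : L1 ≠ M1 := by
      rintro rfl
      have := h2 V X n c τ σ l x1 L1 hS (by omega) (by omega)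
        (fun p hp hp' => hP.cl p hp (by omega)) hP.C1 hP.a1 hM1x
      omega
    have hne2 : M2 ≠ L2 := by
      rintro rfl
      have := h2 V X n c τ σ x2 l' M2 hS (by omega) (by omega)
        (fun p hp hp' => hP.cl p (by omega) hp') hP.C2 hM2x hP.a2
      omega
    have hP1 : PaP X n c l x1 w y1 L1 M1 := by
      refine ⟨by omega, hy1, ?_, fun p hp hp' => hP.cl p hp (by omega), by omega,
        fun i hi hi' => hP.fr i hi (by omega), by omega, by omega, hne1, hP.C1, hM1, hP.a1, hP.b1,
        hM1x, hM1y⟩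
      rcases hP.sep with hs | hs
      · left; omega
      · right; omega
    have hP2 : PaP X n c x2 l' y2 w' M2 L2 := by
      refine ⟨by omega, hy2, ?_, fun p hp hp' => hP.cl p (by omega) hp', by omega,
        fun i hi hi' => hP.fr i (by omega) hi', by omega, by omega, hne2, hM2, hP.C2, hM2x, hM2y,
        hP.a2, hP.b2⟩
      rcases hP.sep with hs | hs
      · left; omega
      · right; omega
    have hc1 : u + 1 ≤ ((Icc w y1).filter (fun i => ¬ Cl X n c i)).card := by
      by_contra hc
      push Not at hc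
      have := ih l x1 w y1 L1 M1 hS hP1 (by
        convert Nat.lt_succ_iff.1 hc)
      omega
    have hc2 : u + 1 ≤ ((Icc y2 w').filter (fun i => ¬ Cl X n c i)).card := by
      by_contra hc
      push Not at hc
      have := ih x2 l' y2 w' M2 L2 hS hP2 (by
        convert Nat.lt_succ_iff.1 hc)
      omega
    have hdisj : Disjoint ((Icc w y1).filter (fun i => ¬ Cl X n c i))
        ((Icc y2 w').filter (fun i => ¬ Cl X n c i)) := by
      rw [Finset.disjoint_left]
      intro i hi hi'
      have h4 := Finset.mem_Icc.1 (Finset.mem_filter.1 hi).1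
      have h5 := Finset.mem_Icc.1 (Finset.mem_filter.1 hi').1
      omega
    have hsub : (Icc w y1).filter (fun i => ¬ Cl X n c i) ∪
        (Icc y2 w').filter (fun i => ¬ Cl X n c i) ⊆
        (Icc w w').filter (fun i => ¬ Cl X n c i) := by
      intro i hi
      rcases Finset.mem_union.1 hi with h | h
      · have h4 := Finset.mem_filter.1 h
        have h5 := Finset.mem_Icc.1 h4.1
        exact Finset.mem_filter.2 ⟨Finset.mem_Icc.2 ⟨h5.1, by omega⟩, h4.2⟩
      · have h4 := Finset.mem_filter.1 h
        have h5 := Finset.mem_Icc.1 h4.1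
        exact Finset.mem_filter.2 ⟨Finset.mem_Icc.2 ⟨by omega, h5.2⟩, h4.2⟩
    have hcc := Finset.card_le_card hsub
    rw [Finset.card_union_of_disjoint hdisj] at hcc
    have hu' : ((Icc w w').filter (fun i => ¬ Cl X n c i)).card ≤ u + 1 := by
      convert hu
    omega

end Pool.Agent.W925.CH.Ps
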